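import Pool.Agent.U442.Sel.AnyEP
import Pool.Agent.U442.Sel.Eis

/-!
# The Tate conjecture at every prime for explicit products of hyperelliptic Jacobians with all abelian
# varieties whose ramification at some places is restricted

Let `K` be a number field, and for `i` in a finite nonempty set let `f i` be a monic separable
polynomial over `K` of odd degree `n i ≥ 7`, whose Galois group is the symmetric or the alternating group
(`BigGal`); `J i` is the Jacobian of the curve `y ^ 2 = f i (x)`, of dimension `(n i - 1) / 2`. The group
`J i (F)`, for an algebraically closed field `F`, is the class group of the ring `F[x, y]` of the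
affine curve (the curve has one point at infinity), and `V_2 (J i)` is its rational 2-adic Tate module.
For each `i` let `v i` be a finite place of `K` and `r i > 0` a number such that (`EisensteinAt`) `f i` is
integral at `v i`, and

  `f i ≡ X ^ r i * g`  modulo `v i`, with `g(0)` a unit, and `f i (0)` has valuation one;

for instance all Eisenstein polynomials (`r i = n i`, `g = 1`).

Let `L` be a finite extension of `K`, and `t` any integral 2-adic representation of the absolute Galois
group of `L`, of any rank `d`, in the form of its matrices over the 2-adic integers; for instance the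
cohomology `H^1(B, ℤ_2)` of any abelian variety `B` over `L`, or `H^i(Z, ℤ_2)` (modulo torsion) of any
smooth projective variety `Z`. We assume (`AllowedAt`), for each `i`: there is a finite normal
extension `E` of `K` which contains `L` and the roots of the other polynomials `f j`, `j ≠ i`, such that `t` is
trivial modulo two over `E`, and a prime ideal of `E` over `v i` whose ramification index over `v i` is
not divisible by `r i`.

**Theorem.** For ALL pure motives `M` in the tensor category generated by `t` (`Generated`: obtained from
the 2-adic representation `t` and characters with values in `ℤ_2ˣ` by tensor products, direct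
sums, duals, subrepresentations and quotients; for instance the cohomology of all powers `B ^ b`) and
at EVERY prime number `ℓ` (`EveryPrime`): all Tate classes on all powers `A ^ a` of the product `A` of the
`J i`, with values in the `ℓ`-adic realization of `M(c)`, are zero in odd degree, and in even degrees they
are linear combinations of products of Tate classes of degree two on `A ^ a` and Tate classes of `M`
(`ProductsWith`).

For one polynomial, `L = K` and `r = 3` the condition is satisfied for ALL abelian varieties `B` over `K`
with semistable reduction at ONE place `v` not over 2, with arbitrary reduction at all other places,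
of any dimension (Grothendieck: the inertia group at `v` acts unipotently, so modulo 2 by a 2-group).
For general `r` the reduction of `B` at `v` can be arbitrary, as soon as the order of the image of the
inertia group in the automorphism group of `B[2]` is not divisible by `r`. There is no
exceptional set of polynomials and no bound for the dimension of `B`.

The meaning for the question. The degree two Tate classes on `A ^ a` are algebraic (Faltings). So the
Tate conjecture in all codimensions, for all the abelian varieties `∏ J i ^ m i × B ^ b` with fixed
`b` and all `m i`, follows from the Tate conjecture for `B ^ b`, for ALL allowed abelian varieties `B` at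
once. (This translation is not formalized. The endomorphism rings of the `J i` and the homomorphisms
between them and `B` are known by theorems of Zarhin.)

What is new. `MP_7b53ad_ag.ExplicitExceptionalSets` and the starting results have an exceptional set of
polynomials which depends on `B` or its places of bad reduction; `MP_09799c_ag.ExplicitCongruences` treats
one curve with `r = 3` and cubic factors modulo `v ^ 2`; `MP_de8692_ag.EisensteinPlaces` is the companion
for `ℓ = 2` over arbitrary fields. Proof: by the Newton polygon the ramification indices of the fields
which contain the roots of `f i` are divisible by `r i`, so a root of `f i` is not in `E`; the Galois group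
over `E` is a normal subgroup, so it contains all even permutations of the roots of `f i`; some
element which is trivial modulo two and fixes the roots of the other polynomials moves a root of `f i`; the
theorems of the starting library (`N171`, `N197.AP`) apply to all generated representations by
`U442.Htj`.
-/

set_option autoImplicit false

namespace Pool.Agent.Results.MP_7b53ad_ag.EisensteinEveryPrime

open Polynomial NumberField IsDedekindDomain
open Pool.Agent.U442.Htj (Generated)
open Pool.Agent.U442.Htj.EP (AbsoluteGaloisGroup matRep EveryPrime)
open Pool.Agent.U442.Sel (EisensteinAt)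

/-- the matrices over `ℚ_2` -/
noncomputable def toQ {G : Type} [Group G] {d : ℕ} (t : G →* Matrix (Fin d) (Fin d) ℤ_[2]) :
    G →* Matrix (Fin d) (Fin d) ℚ_[2] :=
  ((algebraMap ℤ_[2] ℚ_[2]).mapMatrix : Matrix (Fin d) (Fin d) ℤ_[2] →+* _).toMonoidHom.comp t

/-- The matrix of `s` is congruent to one modulo two. -/
def TrivialModTwo {G : Type} [Group G] {d : ℕ} (t : G →* Matrix (Fin d) (Fin d) ℤ_[2]) (s : G) :
    Prop :=
  (t s).map (PadicInt.toZMod (p := 2)) = 1

/-- The automorphisms of the algebraic closures of `K` induce all the even permutations of the roots
of `f`. -/
def BigGal {K : Type} [Field K] (f : K[X]) : Prop :=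
  ∀ (F : Type) [Field F] [Algebra K F] [IsAlgClosure K F] [DecidableEq (f.rootSet F)]
    [Fintype (f.rootSet F)] (π : Equiv.Perm (f.rootSet F)),
    Equiv.Perm.sign π = 1 → ∃ s : F ≃ₐ[K] F, ∀ x : f.rootSet F, s (x : F) = (π x : F)

/-- **All motives in the tensor category generated by `Z`, at every prime number.** -/
def AllMotives {L : Type} [Field L] [NumberField L] {ι : Type} (f : ι → L[X]) {d : ℕ}
    (t : AbsoluteGaloisGroup L →* Matrix (Fin d) (Fin d) ℤ_[2]) : Prop :=
  ∀ (m : ℕ) (ν : AbsoluteGaloisGroup L →* Matrix (Fin m) (Fin m) ℚ_[2]), Continuous ν →
    Generated (matRep (toQ t)) (Fin m → ℚ_[2]) (matRep ν) → EveryPrime f ν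

/-- A finite normal extension `E` of `K` contains `L` and the roots of the `f j`, `j ≠ i`, the
representation `t` is trivial modulo two over `E`, and some prime ideal of `E` over `v` has a ramification
index which is not divisible by `r`. -/
def AllowedAt {K : Type} [Field K] [NumberField K] (v : HeightOneSpectrum (𝓞 K)) (r : ℕ) {ι : Type}
    (f : ι → K[X]) (i : ι) {L : Type} [Field L] [NumberField L] [Algebra K L] {d : ℕ}
    (t : AbsoluteGaloisGroup L →* Matrix (Fin d) (Fin d) ℤ_[2]) : Prop :=
  ∃ (E : IntermediateField K (AlgebraicClosure L)) (_ : NumberField E)
    (P : HeightOneSpectrum (𝓞 E)), Normal K E ∧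
    (∀ x : L, algebraMap L (AlgebraicClosure L) x ∈ E) ∧
    (∀ j, j ≠ i → ∀ x ∈ (f j).rootSet (AlgebraicClosure L), x ∈ E) ∧
    (∀ s : AbsoluteGaloisGroup L, (∀ x ∈ E, s x = x) → TrivialModTwo t s) ∧
    P.asIdeal.LiesOver v.asIdeal ∧ ¬ r ∣ v.asIdeal.ramificationIdx' P.asIdeal

/-- **Tate classes at every prime on explicit products of hyperelliptic Jacobians with all abelian
varieties whose ramification at some places is restricted.** -/
theorem result {K : Type} [Field K] [NumberField K] {ι : Type} [Fintype ι] [Nonempty ι]
    (f : ι → K[X]) (v : ι → HeightOneSpectrum (𝓞 K)) (r : ι → ℕ)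
    (hf : ∀ i, (f i).Monic ∧ (f i).Separable ∧ Odd (f i).natDegree ∧ 7 ≤ (f i).natDegree ∧
      BigGal (f i) ∧ 0 < r i ∧ EisensteinAt ((v i).valuation K) (r i) (f i))
    (L : Type) [Field L] [NumberField L] [Algebra K L] (d : ℕ)
    (t : AbsoluteGaloisGroup L →* Matrix (Fin d) (Fin d) ℤ_[2])
    (ht : ∀ i, AllowedAt (v i) (r i) f i t) :
    AllMotives (fun i => (f i).map (algebraMap K L)) t := by
  classical
  intro m ν hν hgen
  have halg : Algebra.IsAlgebraic K (AlgebraicClosure L) :=
    Algebra.IsAlgebraic.trans K L (AlgebraicClosure L)
  have hcl : IsAlgClosure K (AlgebraicClosure L) := ⟨inferInstance, halg⟩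
  refine Pool.Agent.U442.Htj.EP.everyPrime_of_gd _ (fun i => ⟨(hf i).1.map _, (hf i).2.1.map, ?_,
    two_ne_zero⟩) ν hν (Pool.Agent.U442.Sel.gd_of_fields (F := AlgebraicClosure L) f
      (fun i => (hf i).1) (fun i => (hf i).2.1) (fun i => (hf i).2.2.2.1)
      (fun i π hπ => (hf i).2.2.2.2.1 (AlgebraicClosure L) π (by convert hπ)) (t := t)
      (fun i => ?_)
      (Pool.Agent.U442.Htj.governed_of_generated (Pool.Agent.U442.Htj.EP.hasMatrices_toQ t) hgen))
  · rw [natDegree_map]
    exact (hf i).2.2.1
  · obtain ⟨E, hE0, P, hE, hL, hj, htE, hP, he⟩ := ht i
    refine ⟨E, hE, hL, htE, hj, ?_⟩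
    by_contra hcon
    push Not at hcon
    exact Pool.Agent.U442.Sel.eisen (w := P.valuation E) (hf i).2.2.2.2.2.1
      (fun x => (HeightOneSpectrum.valuation_liesOver (A := 𝓞 K) (B := 𝓞 E) (K := K) E (v i) P
        x).symm) he (hf i).2.2.2.2.2.2 (hf i).1
      (IntermediateField.splits_of_splits (IsAlgClosed.splits _) hcon)

end Pool.Agent.Results.MP_7b53ad_ag.EisensteinEveryPrime
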