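import Pool.Agent.U442.Gro.Main
import Pool.Agent.U442.Gro.Exc

/-!
# The Tate conjecture for the products of hyperelliptic Jacobians with ALL abelian varieties (and motives)
# with good reduction outside of a finite set of primes: explicit exceptional sets

Let `L` be a number field and let `f i`, `i` in a set `I` (which may be infinite), be monic separable
polynomials over `L` of odd degrees `n i ≥ 7`, such that the Galois group of each `f i` contains the
alternating group (`BigGal`) and no splitting field is contained in another (`NotIn`). `J i` is the
Jacobian of the curve `y ^ 2 = f i (x)`, of dimension `(n i - 1) / 2`. The group `J i (F)`, for an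
algebraically closed field `F`, is the class group of the ring `F[x, y]` of the affine curve (the curve
has one point at infinity), and `V_2 (J i)` is its rational 2-adic Tate module.

Let `S` be a finite set of prime numbers. We consider the integral 2-adic representations `t` of the
absolute Galois group of `L`, of ANY rank `d`, which are unramified modulo 2 outside of `S`
(`UnramifiedModTwo`): there is a finite normal extension `E` of `ℚ` which contains `L`, the prime
divisors of its discriminant are in `S`, and its Galois group acts trivially modulo 2. If `S` contains 2,
the primes ramified in `L` and the residue characteristics of the places of bad reduction, this is so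
for the Tate module `T_2 (B)` of an abelian variety `B` over `L`, and for the cohomology
`H^i(Z, ℤ_2)` modulo torsion of a smooth projective variety `Z`. There are infinitely many isogeny
classes of such abelian varieties, of unbounded dimension, as soon as there is one.

`AllMotives`: for ALL pure motives `M` in the tensor category generated by `t` (`Generated`: obtained
from the 2-adic realization and characters with values in `ℤ_2ˣ`, such as the Tate twists, by
tensor products, direct sums, duals, subrepresentations and quotients; for instance all direct summands
of the cohomology of all powers `B ^ b`) and for EVERY prime number `ℓ` (`EveryPrime`): all Tate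
classes on all powers `A ^ a` of the product `A` of the Jacobians with values in the `ℓ`-adic
realization of `M(c)` are zero in odd degrees, and in even degrees they are linear combinations of
products of Tate classes of degree two on `A ^ a` and Tate classes of `M` (`ProductsWith`). The Tate
classes of degree two on abelian varieties are algebraic (Faltings). So the Tate conjecture at `ℓ` for
the abelian varieties `J 1 ^ m 1 × ... × J r ^ m r × B ^ b` is EQUIVALENT to the Tate conjecture at `ℓ`
for the powers `B ^ b`, for every `ℓ`. (The definitions and the theorem contain only Tate classes; `M`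
and `A` enter through the characteristic polynomials `Q v` and `P v` of the Frobenius elements
outside of any finite set of places, their purity, and one continuous 2-adic realization.)

**Theorem.** For every finite set `S` of primes there is a set `E` of indices (the exceptional members)
such that

(1) for each `n` the number of the exceptional members of degree at most `n` is finite, and at most
`(8 D) ^ (40 m ^ 3)`, with `m = [L : ℚ] n!` and `D` the product of `(q m!) ^ m!` for `q` in `S`
(`bound`);

(2) if the discriminant of the splitting field of `f i` is divisible by a prime not in `S` then `i` is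
not exceptional;

(3) for ALL products of Jacobians `J i` of different indices `i` which are not exceptional and for ALL
representations `t` which are unramified modulo 2 outside of `S` the statement `AllMotives` is true.

What is new. The exceptional set depends only on `S`, not on the abelian variety `B` or its dimension. In
`MP_c184fc_ag.AllButFewMembers` (and in the starting result `MP_7b53ad_ag.LargeGaloisGroups`, which
treats one product and one variety at a time) the exceptional set depends on the representation
modulo 2, and its size is bounded in terms of the rank. Proof: if `i` is exceptional, the Galois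
closure over `ℚ` of the splitting field of `f i` is unramified outside of `S`, and the number of
these fields is bounded by the explicit theorem of Hermite and Minkowski of the starting library
(`N890.US`).
-/

set_option autoImplicit false

namespace Pool.Agent.Results.MP_7b53ad_ag.ExplicitExceptionalSets

open Polynomial NumberField
open Pool.Agent.N171 (HypP)
open Pool.Agent.U442.Htj (Generated)
open Pool.Agent.U442.Htj.EP (AbsoluteGaloisGroup matRep EveryPrime)
open scoped Classical

/-- The Galois group of `f` contains all the even permutations of the roots. -/
def BigGal {L : Type} [Field L] (f : L[X]) : Prop :=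
  ∀ π : Equiv.Perm (f.rootSet (AlgebraicClosure L)), Equiv.Perm.sign π = 1 →
    ∃ s : AbsoluteGaloisGroup L, ∀ x : f.rootSet (AlgebraicClosure L),
      s (x : AlgebraicClosure L) = (π x : AlgebraicClosure L)

/-- The splitting field of `f` is not contained in the splitting field of `g`: some automorphism fixes
the roots of `g` and moves a root of `f`. -/
def NotIn {L : Type} [Field L] (f g : L[X]) : Prop :=
  ∃ s : AbsoluteGaloisGroup L, (∀ x ∈ g.rootSet (AlgebraicClosure L), s x = x) ∧
    ∃ x ∈ f.rootSet (AlgebraicClosure L), s x ≠ x

/-- the matrices over `ℚ_2` -/
noncomputable def toQ {G : Type} [Group G] {d : ℕ} (t : G →* Matrix (Fin d) (Fin d) ℤ_[2]) :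
    G →* Matrix (Fin d) (Fin d) ℚ_[2] :=
  ((algebraMap ℤ_[2] ℚ_[2]).mapMatrix : Matrix (Fin d) (Fin d) ℤ_[2] →+* _).toMonoidHom.comp t

/-- The matrix of `s` is congruent to one modulo two. -/
def TrivialModTwo {G : Type} [Group G] {d : ℕ} (t : G →* Matrix (Fin d) (Fin d) ℤ_[2]) (s : G) :
    Prop :=
  (t s).map (PadicInt.toZMod (p := 2)) = 1

/-- **All motives in the tensor category generated by `t`, at every prime number.** -/
def AllMotives {L : Type} [Field L] [NumberField L] {ι : Type} (f : ι → L[X]) {d : ℕ}
    (t : AbsoluteGaloisGroup L →* Matrix (Fin d) (Fin d) ℤ_[2]) : Prop :=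
  ∀ (m : ℕ) (ν : AbsoluteGaloisGroup L →* Matrix (Fin m) (Fin m) ℚ_[2]), Continuous ν →
    Generated (matRep (toQ t)) (Fin m → ℚ_[2]) (matRep ν) → EveryPrime f ν

/-- The representation modulo two is unramified outside of the set `S` of prime numbers: it is trivial
over a finite normal extension `E` of `ℚ`, the prime divisors of whose discriminant are in `S`. -/
def UnramifiedModTwo {L : Type} [Field L] [NumberField L] (S : Finset ℕ) {d : ℕ}
    (t : AbsoluteGaloisGroup L →* Matrix (Fin d) (Fin d) ℤ_[2]) : Prop :=
  ∃ (E : IntermediateField ℚ (AlgebraicClosure L)) (_ : NumberField E), Normal ℚ E ∧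
    (∀ x : L, algebraMap L (AlgebraicClosure L) x ∈ E) ∧
    (∀ q : ℕ, q.Prime → (q : ℤ) ∣ NumberField.discr E → q ∈ S) ∧
    ∀ s : AbsoluteGaloisGroup L, (∀ x ∈ E, s x = x) → TrivialModTwo t s

/-- The bound `(8 D) ^ (40 m ^ 3)` for the number of the exceptional members, `m = [L : ℚ] n!` and
`D = ∏ q ∈ S, (q m!) ^ m!`. -/
noncomputable def bound (L : Type) [Field L] [NumberField L] (S : Finset ℕ) (n : ℕ) : ℕ :=
  (8 * ∏ q ∈ S, (q * (Module.finrank ℚ L * n.factorial).factorial) ^
    (Module.finrank ℚ L * n.factorial).factorial) ^ (40 * (Module.finrank ℚ L * n.factorial) ^ 3)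

/-- The discriminant of the splitting field of `f` is divisible by a prime number which is not in
`S`. -/
def RamifiedOutside {L : Type} [Field L] (S : Finset ℕ) (f : L[X]) : Prop :=
  ∃ (M : Type) (_ : Field M) (_ : NumberField M) (_ : Algebra L M), IsSplittingField L M f ∧
    ∃ q : ℕ, q.Prime ∧ q ∉ S ∧ (q : ℤ) ∣ NumberField.discr M

/-- **The Tate conjecture at every prime number for the products of the members of a family of
hyperelliptic Jacobians with large Galois groups, all but explicitly few, with all the motives with
good reduction outside of a finite set of primes.** -/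
theorem result {L : Type} [Field L] [NumberField L] {I : Type} (f : I → L[X])
    (hmon : ∀ i, (f i).Monic) (hsep : ∀ i, (f i).Separable) (hodd : ∀ i, Odd (f i).natDegree)
    (h7 : ∀ i, 7 ≤ (f i).natDegree) (hG : ∀ i, BigGal (f i))
    (hd : ∀ i j, i ≠ j → NotIn (f i) (f j)) (S : Finset ℕ) (hS : ∀ q ∈ S, q.Prime) :
    ∃ E : Set I,
      (∀ n : ℕ, {i | i ∈ E ∧ (f i).natDegree ≤ n}.Finite ∧
        {i | i ∈ E ∧ (f i).natDegree ≤ n}.ncard ≤ bound L S n) ∧
      (∀ i, RamifiedOutside S (f i) → i ∉ E) ∧
      ∀ (κ : Type) [Fintype κ] [Nonempty κ] (e : κ → I), Function.Injective e → (∀ k, e k ∉ E) →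
        ∀ (d : ℕ) (t : AbsoluteGaloisGroup L →* Matrix (Fin d) (Fin d) ℤ_[2]),
          UnramifiedModTwo S t → AllMotives (fun k => f (e k)) t := by
  refine ⟨{i | Pool.Agent.U442.Gro.IsExc S (f i)}, fun n => ?_, fun i hi => ?_,
    fun κ _ _ e he hk d t ht m ν hν hgen => ?_⟩
  · exact Pool.Agent.U442.Gro.count_exc hS f hsep (fun i j hij => hd i j hij) n _ rfl
  · obtain ⟨M, _, _, _, h1, q, hq, hqS, hqd⟩ := hi
    exact Pool.Agent.U442.Gro.not_exc (hsep i) M hq hqS hqd
  · have hyp : ∀ k, HypP (f (e k)) := fun k =>
      { monic := hmon _
        sep := hsep _
        odd := hodd _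
        two := two_ne_zero }
    refine Pool.Agent.U442.Htj.EP.everyPrime_of_gd _ hyp ν hν ?_
    have hgov := Pool.Agent.U442.Htj.governed_of_generated
      (Pool.Agent.U442.Htj.EP.hasMatrices_toQ t) hgen
    refine Pool.Agent.U442.Htj.EP.gd_of_governed (fun k => f (e k)) (fun k => h7 _) (fun k => hG _)
      (fun k l hkl => hd _ _ fun h => hkl (he h).symm) (t := t) (fun k => ?_) hgov
    obtain ⟨E, hE, h1, h2, h3, h4⟩ := ht
    have h5 : ¬ ∀ x ∈ (f (e k)).rootSet (AlgebraicClosure L), x ∈ E := fun h =>
      hk k ⟨E, hE, h1, h2, h3, Pool.Agent.U442.Gro.Kf_le h2 h⟩
    push Not at h5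
    obtain ⟨x, hx, hxE⟩ := h5
    by_contra hcon
    push Not at hcon
    exact hxE (Pool.Agent.U442.Gro.mem_of_fixed (L := L) E h2 x fun s hs => hcon s (h4 s hs) x hx)

end Pool.Agent.Results.MP_7b53ad_ag.ExplicitExceptionalSets
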