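import Mathlib
import Pool.Agent.U124.FT.Tate

/-!
# The Tate conjecture for powers of abelian varieties whose reduction at one place has no exotic classes
of codimension two

Let `A` be an abelian variety over a field `k` which is finitely generated over its prime field, of any
characteristic `≠ ℓ`, of any dimension and with arbitrary endomorphisms; `V` is its rational Tate
module.  Suppose that `A` has good reduction `B` at some place (a point with finite residue field of a
model of `k`), with Frobenius element `γ`.

**First part.**  Suppose that the eigenvalues of `γ` on `V` are distinct, that `√q` and `-√q` are not
among them, and that all multiplicative relations between FOUR of them (which may be equal) are trivial: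
if `x y z w = ζ q ^ 2` for a root of unity `ζ`, then `x y = q` or `x z = q` or `x w = q`
(`HasOnlyPairs`).  In other words: the endomorphism algebra of `B` over an algebraic closure is
commutative, `B` has no supersingular factor, and the Tate classes of codimension two on the powers
of `B` are combinations of intersections of divisors.  Nothing is assumed on relations between
more than four eigenvalues: `B` can have exotic Tate classes of codimension three and more.

* Suppose that all strongly irreducible subspaces are symplectic (for instance that the endomorphism
  algebra of `A` over the algebraic closure is `ℚ` or totally real).  Then all Tate classes on all
  powers of `A` are linear combinations of intersections of divisors, and the Tate conjecture holds for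
  all powers of `A`.
* Suppose that the strongly irreducible planes are symplectic (if `A` is simple over the algebraic
  closure this just means that the endomorphism algebra is not a CM field of degree `dim A`).  Then
  all Tate classes on all powers of `A` are linear combinations of products of classes of divisors and
  of Weil classes; so the Tate conjecture holds for all powers of `A` if it holds for the Weil
  classes.  If there are no Weil families there are no Weil classes and the Tate conjecture holds.

**Second part.**  The assumption on the relations is satisfied if the characteristic polynomial of
`γ` is the minimal polynomial of a Weil number `π` in a CM field `E` of degree `r` over a CM subfield `K`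
(for instance an imaginary quadratic field), with `r ≥ 5`, or `r = 3` and `K` imaginary quadratic,
and (`IsGoodOver`) no power of `π` is in `K` and `r` is a prime number (and the automorphisms of `ℂ` that
fix the embeddings of `E` not over `κ` and its complex conjugate are transitive on those over `κ`,
for all embeddings `κ` of `K`, if `K` is not quadratic), or no power of `π` is in `K` and these
automorphisms are doubly transitive, or all relations between the conjugates of `π` are
defined over `K`.  In these cases there can be relations (for instance Weil's relations, of length
`r`, if `K` is quadratic), so that there can be exotic Tate classes on the powers of the reduction.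

Dimension four has to be excluded in the second part: Mumford's abelian fourfolds with
`End(A) = ℤ`, which have exotic Tate classes on their powers, have relations between four eigenvalues.

The proof: see the file on the Mumford-Tate conjecture (MP_33b3f9_ag), where the analogous theorem on
Hodge classes is proved.  Before (starting files), one Frobenius element was known to suffice if there
are no relations at all, or together with information from places of bad reduction or a second
place (`MixedPlaces`), or if `A` has a large Galois group.
-/

set_option autoImplicit false

namespace Pool.Agent.Results.MP_7b53ad_ag.NoExoticClassesAtOnePlace

open NumberField Pool.Agent.U124.FT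

/-- **The Tate conjecture for the powers of abelian varieties whose reduction at one place has no
exotic classes of codimension two, and Weil numbers with this property.** -/
theorem result :
    (∀ (ℓ : ℕ) [Fact ℓ.Prime] (A : TateModule ℓ) (γ : A.Γ), A.HasOnlyPairs γ →
      (A.IsOfSymplecticType → A.TateClassesFromDivisors) ∧
      (A.PlanesAreSymplectic →
        A.TateClassesFromWeilClasses ∧ (A.HasNoWeilFamily → A.TateClassesFromDivisors))) ∧
    ∀ (E K : Type) [Field E] [NumberField E] [IsCMField E] [Field K] [NumberField K]
      [IsCMField K] (ι : K →+* E) (r q : ℕ) (π : E), 0 < q →
      (∀ φ : E →+* ℂ, ‖φ π‖ ^ 2 = (q : ℝ)) → IsGoodOver ι r q π →
      ∀ (ℓ : ℕ) [Fact ℓ.Prime] (A : TateModule ℓ) (γ : A.Γ), A.IsFrobeniusFor γ q π →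
        A.HasOnlyPairs γ :=
  ⟨fun _ _ A _ h => ⟨A.divisors_of_symplectic h, A.tate_of_onlyPairs h⟩,
    fun _ _ _ _ _ _ _ _ ι _ _ _ hq hπ h _ _ A γ hγ =>
      TateModule.hasOnlyPairs_of_good hq hπ ι h A γ hγ⟩

end Pool.Agent.Results.MP_7b53ad_ag.NoExoticClassesAtOnePlace
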