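import Pool.Agent.U436.AS.GCurve

/-!
# A geometric product formula for the coverings `A (y) = F (x)`, `w ^ n = ∏ (x - P i) ^ a i` of the line

Let `k` be an algebraically closed field, `A ≠ 0` an additive polynomial over `k` (for example `y ^ q - y`, `q` a power
of the characteristic), `n ≥ 1`. Let

  `F (x) = f0 (x) + ∑ f i (1 / (x - P i))`

be ANY rational function with a pole of order `m 0 = 2 r0 + ε0 + 1` at infinity and poles of orders
`m i = 2 r i + ε i + 1` (`ε ∈ {0, 1}`) at `N` different points `P i`, all these orders being different from zero in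
`k`; let `P j` be `M` further points and `a i`, `a j` natural numbers. `C` is the curve

  `A (y) = F (x)`, `w ^ n = ∏ (x - P i) ^ a i`, `x ≠ P i`,

and `d = m 0 - 1 + ∑ (m i + 1) + M`, which is the dimension of the `(ψ, χ)`-part of `H¹` if `A = y ^ q - y` and
`ψ`, `χ ^ (a j)` are not trivial. `V` is the variety

  `A (z) = Q 0 + ∑ (Q i + t i (1 - u i)) + ∑ u j`,  `w ^ n = ∏ u i ^ a i ∏ u j ^ a j`,  `u i, u j ≠ 0`,

`Q i` being the quadratic form of rank `m i - 1` (`∑ x y`, plus the square of a further coordinate if `m i` is even),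
in new variables for every `i`. `V` depends only on `A`, `n`, the pole orders and the `a i`, NOT on the points and not
on `F`. We show: the space of the monic polynomials `g` of degree `d` with `g (P i) ≠ 0` is isomorphic, by
regular functions (polynomials in the coefficients and the inverses of the `g (P i)`, and conversely), with the affine
space of the coordinates `(x 0, x i, t i, u i, u j)`, `u ≠ 0`, in such a way that

  `(x l, y l, w l) ↦ (Φ (∏ (X - x l)), ∑ y l - c, λ ∏ w l)`

maps `C ^ d` onto `V`, and its fibres are the orbits of the finite group of the permutations, the zeros `α l` of `A`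
with sum zero and the `n`-th roots of unity `β l` with product one. So `C ^ d / G` is `V` for every `F` and all
points.

Relation to the Tate conjecture (not formalised): let `k` be an algebraic closure of a finitely generated field of
characteristic `p`, `A = y ^ q - y`. The `(ψ, χ)`-part of `H_c (V)` is the determinant of the `(ψ, χ)`-part of `H¹ (C)`.
Where `u i ≠ 1` the coordinate `t i` is free, so this part comes from `u i = 1`. If `M = 0` (for `q = p`: `C` is any
ramified `ℤ/p`-covering of the line) and `d` is even it is spanned by the classes of the linear subspaces of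
dimension `d / 2`: all Weil classes on the Jacobians of all these curves are algebraic. For `M > 0` the determinant is
the tensor product of the parts `H¹ (A (z) = w ^ n) (ψ, χ ^ (a j))` (Gauss sums): a motivic form of the product
formula for `ε`-factors of Laumon, in rank one, and the correspondences between the determinants for two curves with
the same `m i`, `a i` are algebraic.
-/

set_option autoImplicit false

namespace Pool.Agent.Results.MP_7b53ad_ag.ProductFormula

open Pool.Agent.U436.AS

theorem result (k : Type) [Field k] [IsAlgClosed k] (A : Polynomial k) (hA : IsAdditive A) (hA0 : A ≠ 0)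
    (n : ℕ) (hn : n ≠ 0) (N M r0 ε0 : ℕ) (hε0 : ε0 ≤ 1) (r ε : Fin N → ℕ) (hε : ∀ i, ε i ≤ 1)
    (f0 : Polynomial k) (hf0 : f0.natDegree = r0 + ε0 + r0 + 1) (hm0 : ((r0 + ε0 + r0 + 1 : ℕ) : k) ≠ 0)
    (f : Fin N → Polynomial k) (hf : ∀ i, (f i).natDegree = r i + ε i + r i + 1)
    (hm : ∀ i, ((r i + ε i + r i + 1 : ℕ) : k) ≠ 0) (P : Fin N ⊕ Fin M → k) (hP : Function.Injective P)
    (a : Fin N ⊕ Fin M → ℕ) (hd : 1 ≤ dd r0 ε0 r ε M) :
    ∃ (c lam : k) (Φ : (Fin (dd r0 ε0 r ε M) → k) → TT r0 ε0 r ε M → k), IsRegEquiv (dval P) cu Φ ∧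
      (∀ u : Fin (dd r0 ε0 r ε M) → k × k × k, (∀ l, u l ∈ gcurve A n f0 f P a) →
        gmap Φ c lam u ∈ gtarget A n r0 ε0 r ε a) ∧
      (∀ x ∈ gtarget A n r0 ε0 r ε a, ∃ u : Fin (dd r0 ε0 r ε M) → k × k × k,
        (∀ l, u l ∈ gcurve A n f0 f P a) ∧ gmap Φ c lam u = x) ∧
      (∀ u u' : Fin (dd r0 ε0 r ε M) → k × k × k, (∀ l, u l ∈ gcurve A n f0 f P a) →
        (∀ l, u' l ∈ gcurve A n f0 f P a) →
        (gmap Φ c lam u = gmap Φ c lam u' ↔
          ∃ (σ : Equiv.Perm (Fin (dd r0 ε0 r ε M))) (α β : Fin (dd r0 ε0 r ε M) → k),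
            (∀ l, A.eval (α l) = 0) ∧ ∑ l, α l = 0 ∧ (∀ l, β l ^ n = 1) ∧ ∏ l, β l = 1 ∧
              ∀ l, u' l = ((u (σ l)).1, (u (σ l)).2.1 + α l, β l * (u (σ l)).2.2))) := by
  obtain ⟨κ, lamA, Φ, h1, h2, h3, h4⟩ := exists_normal hε0 hε hf0 hm0 hf hm hP
  have hN : IsNormal f0 f P κ lamA Φ := ⟨h1, h2, h3, h4⟩
  obtain ⟨c, hc⟩ := hA.surj hA0 κ
  obtain ⟨lam, hlam0, hlam⟩ := exists_lam (a := a) hn hN
  exact ⟨c, lam, Φ, h2, fun u hu => gmap_mem hA hN hc hlam hu,
    fun x hx => gmap_surj hA hA0 hn hd hN hc hlam0 hlam hx,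
    fun u u' hu hu' => gmap_eq_iff hA hn hN hlam0 hu hu'⟩

end Pool.Agent.Results.MP_7b53ad_ag.ProductFormula
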