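import Pool.Agent.U173.OP.Main

/-!
# The Tate conjecture over finitely generated fields: factors which are good at one place

Let `k` be a finitely generated field of any characteristic, `𝒱` a class of smooth projective varieties
over `k` which is closed under products (for instance the abelian varieties), `C` their Chow groups with
rational coefficients, `H` a Weil cohomology theory with an algebraically closed field of coefficients
(`ℓ`-adic cohomology, with coefficients extended to the algebraic closure of `ℚ_ℓ`), with the operation `ρ`
of the Galois group `G`, which acts on the classes of divisors through the character `χ` (framework of
the starting library `N166/TT`; only formal properties are used, `IsArithmetic`). A *Tate class* of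
codimension `n` on `X` is an element of `H^{2n}(X)` on which `G` acts through `χ ^ n`, that is, an
invariant in `H^{2n}(X)(n)`; the Tate conjecture for `X` in codimension `n` says that these classes are
linear combinations of classes of algebraic cycles (`IsSpanned`). To have all classes which are fixed by
open subgroups one replaces `k` by a finite extension.

Let `v` be a place of `k` (a closed point of a model) with residue field of `p ^ m` elements, `σ` a
geometric Frobenius element, `χ σ = p ^ m`, and fix a place `ι` above `p` of the field `ℚ̄` of the algebraic
numbers. If `X` has good reduction at `v` then `σ` acts on `H(X)` as the Frobenius on the cohomology of
the reduction. A *slope field* of `X` at `v` is a subfield `M` of `ℚ̄` such that the automorphisms of `ℚ̄`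
over `M` do not change the absolute values at `ι` of the conjugates of the eigenvalues of `σ` on `H(X)`
(`HasSlopeField`; the smallest one is the field of definition of the slope cocharacter of the Frobenius
torus at `v`; the reflex field if the reduction is an ordinary abelian variety).

The variety `X` is *good* at `v` with slope field `L` (`IsGood`) if `H(X)` is generated by the classes of
algebraic cycles **on `X`** and a subspace stable under `σ` such that the eigenvalues of `σ` on it are
Weil numbers with slope field `L` and **not supersingular** (no power of them is a power of `p`). This is a
property of `X` at one single place. For instance the following varieties are good at `v`:
* constant varieties over a function field `k` over a finite field, if the Tate conjecture with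
  semisimplicity is true for them over the finite field (large enough) and they have no supersingular
  eigenvalues in odd degrees;
* elliptic curves (with or without complex multiplication) with ordinary reduction at `v`;
* K3 surfaces over number fields for which the geometric Picard number does not jump at `v`, and which
  do not become supersingular;
* abelian varieties of CM type over number fields for which the Tate conjecture is known and such that
  all relations between the Frobenius eigenvalues at `v` come from relations between the CM types.

**Theorem.** Let `X i` (`i` in the list `l`) be varieties over `k`, **each of them good at some place
`v i`, which may depend on `i`**, with a slope field `L i` which contains a totally real field `E i`. Let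
`Y j` (`j` in the list `l'`) and `Z` be **arbitrary** varieties over `k`. Suppose that for each `i` in `l`

* the later `X j`, the `Y j` and `Z` have **each of them** at the place `v i` a slope field which
  contains `E i` and meets `L i` in a totally real field (and they are pure at `v i`, the theorem of
  Deligne, if they have good reduction there; for `Z` purity is not needed), and
* `L i` is normal over `E i`, unless `X i` is the last factor but `Z`.

Nothing is assumed on the composita of the slope fields, nothing on the reductions at other places, and
nothing on the cycles on the `Y j` and `Z`. Let `U = ∏ Y j × Z` and `V = ∏ X i × U`, `e = ∑ dim X i`. Then

1. the Tate conjecture for `V` in codimension `n` is equivalent to the Tate conjecture for `U` in the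
   codimensions `m` with `n - e ≤ m ≤ n`;
2. the equality of the rank of the group of cycles modulo homological equivalence and of the dimension
   of the space of Tate classes, in all codimensions, holds for `V` if and only if it holds for `U`;
3. there are finitely many algebraic cycles `D_a` on the first factor `X i` such that, modulo
   homological equivalence, the cycles on `V` are in a unique way the sums of `D_a × z_a` with cycles
   `z_a` on the product of the other factors, and the Tate classes on `V` are in a unique way the sums of
   the `cl (D_a) × h_a` with Tate classes `h_a` on the product of the other factors.

The criterion for the fields. Every CM field `L` is normal over its largest totally real subfield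
`E = L⁺`. So if `L i` is a CM field and the factors have the slope fields `M` at `v i`, then it is enough that
`L i` **is not contained in** `L i⁺ M`, **for each factor separately**. For example let `X i` be pairwise
non-isogenous elliptic curves over a number field with ordinary reduction at `v i`, and `L i` the imaginary
quadratic field generated by the Frobenius eigenvalues of `X i` at `v i`. If `L i` is not contained in
the slope fields at `v i` of the abelian varieties `X j`, `j ≠ i`, and `Y j`, then the Tate conjecture for
`∏ X i × ∏ Y j`, in all codimensions, is equivalent to the one for `∏ Y j`.

The proof. Let `w` be a Tate class on `X i × V'`, `V'` the product of the later factors. It is an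
eigenvector of `σ` in `H(X i) ⊗ H(V')` with eigenvalue `p ^ (m n)`. If it were not in the part generated by
the algebraic classes of `X i` then there were an eigenvalue `α` on the good part of `H(X i)`, eigenvalues
`y j` on the cohomology of the other factors and `β` on `H(Z)` with `α ∏ y_j β = p ^ (m n)`. The functions
`2 log |g α| - const` and `2 log |g y_j| - const` on the Galois group of `ℚ̄` are odd under the complex
conjugation, and invariant under the Galois groups over `L i` and over the slope fields `M_j`. The
average over `Gal(ℚ̄ / L i)` commutes with the translations by `Gal(ℚ̄ / E i)`, which contains the complex
conjugation; so it kills the functions of the `y_j`: the averages are odd and invariant under the group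
generated by the Galois groups over `L i` and `M_j`, which contains the complex conjugation, since
`L i ∩ M_j` is totally real. So the function of `α` is a multiple of the average of the sum, hence invariant
under the Galois group over the slope field of `Z`, hence zero, and `α` is supersingular, a contradiction
(`U173/OP/Star`). Since the intersection form is nondegenerate on the algebraic classes of `X i` there
are dual systems of cycles, which give the expansions; the coefficients of Tate classes are Tate classes.

The results of mine for finite fields (`MP_ee618e_ag.PairwiseSlopeFields` and its siblings) concern one
place, one field `E` for all factors, and good factors. New here: finitely generated fields, places which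
depend on the factor, the fields `E i` which depend on the factor (so that all CM fields are allowed),
and several arbitrary factors `Y j` with conditions on the pairs only.
-/

set_option autoImplicit false

open CategoryTheory AlgebraicGeometry

namespace Pool.Agent.Results.MP_7b53ad_ag.SlopeFieldsAtOnePlace

open Pool.Agent.H914 Pool.Agent.H914.VarClass Pool.Agent.W492.BB Pool.Agent.N166.TT
  Pool.Agent.U231.FR.Base Pool.Agent.U173.OP

/-- **The Tate conjecture over finitely generated fields for products with varieties which are good at
one place.** -/
theorem result {k : Type} [Field k] {𝒱 : VarClass k} (C : TheoryData.{0, 0, 0} 𝒱 ℚ) [IsChow C]
    {K : Type} [Field K] [IsAlgClosed K] [CharZero K] (H : WeilTheoryData.{0, 0, 0} C K) [IsWeil H]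
    {G : Type} (ρ : Operations H G) (h : IsArithmetic ρ) {I I' : Type} (v : I → Place G)
    (E L : I → IntermediateField ℚ (AlgebraicClosure ℚ)) (X : I → 𝒱.Obj) (Y : I' → 𝒱.Obj)
    (Z : 𝒱.Obj) (l : List I) (l' : List I') (hsys : IsSystem ρ v E L X Y Z l l') :
    (∀ n : ℕ, IsSpanned ρ (productOf X (productOf Y Z l') l) n ↔
      ∀ m : ℕ, m ≤ n → n ≤ m + dimension X l → IsSpanned ρ (productOf Y Z l') m) ∧
    ((∀ n, RankEquality ρ (productOf X (productOf Y Z l') l) n) ↔
      ∀ n, RankEquality ρ (productOf Y Z l') n) ∧
    (∀ i l₁, l = i :: l₁ → IsDetermined ρ (X i) (productOf X (productOf Y Z l') l₁)) :=
  main h l hsys

end Pool.Agent.Results.MP_7b53ad_ag.SlopeFieldsAtOnePlace
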